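import Mathlib

/-!
# The McLain group over the rationals and the field with two elements
-/

namespace Q6.McLain

open scoped commutatorElement

/-- The vector space with basis indexed by the rationals. -/
abbrev V : Type := ℚ →₀ ZMod 2

theorem add_self (v : V) : v + v = 0 := by
  ext i
  rw [Finsupp.add_apply, Finsupp.zero_apply]
  exact CharTwo.add_self_eq_zero _

/-- The transvection `v ↦ v + v β • e α`. -/
noncomputable def tv (α β : ℚ) (h : α ≠ β) : V ≃ₗ[ZMod 2] V :=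
  LinearEquiv.ofInvolutive
    { toFun := fun v => v + Finsupp.single α (v β)
      map_add' := by
        intro v w
        rw [Finsupp.add_apply, Finsupp.single_add]
        abel
      map_smul' := by
        intro c v
        rw [Finsupp.smul_apply, RingHom.id_apply, smul_add, Finsupp.smul_single] }
    (by
      intro v
      show (v + Finsupp.single α (v β)) +
        Finsupp.single α ((v + Finsupp.single α (v β)) β) = v
      rw [Finsupp.add_apply, Finsupp.single_apply, if_neg h, add_zero, add_assoc, add_self,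
        add_zero])

theorem tv_apply (α β : ℚ) (h : α ≠ β) (v : V) : tv α β h v = v + Finsupp.single α (v β) := rfl

theorem tv_inv (α β : ℚ) (h : α ≠ β) : (tv α β h)⁻¹ = tv α β h := by
  rw [inv_eq_iff_mul_eq_one]
  apply LinearEquiv.ext
  intro v
  show tv α β h (tv α β h v) = v
  rw [tv_apply, tv_apply, Finsupp.add_apply, Finsupp.single_apply (a := α), if_neg h, add_zero,
    add_assoc, add_self, add_zero]

/-- The McLain group. -/
noncomputable def U : Subgroup (V ≃ₗ[ZMod 2] V) :=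
  Subgroup.closure {g | ∃ (α β : ℚ) (h : α < β), g = tv α β h.ne}

theorem tv_mem {α β : ℚ} (h : α < β) : tv α β h.ne ∈ U :=
  Subgroup.subset_closure ⟨α, β, h, rfl⟩

/-- `g` changes only coordinates in the open interval `(lo, hi)`, and fixes the basis vectors
outside. -/
def Bd (g : V ≃ₗ[ZMod 2] V) (lo hi : ℚ) : Prop :=
  (∀ v δ, (δ ≤ lo ∨ hi ≤ δ) → (g v) δ = v δ) ∧
    ∀ δ, (δ ≤ lo ∨ hi ≤ δ) → g (Finsupp.single δ 1) = Finsupp.single δ 1

theorem Bd.mono {g : V ≃ₗ[ZMod 2] V} {lo hi lo' hi' : ℚ} (h : Bd g lo hi) (h1 : lo' ≤ lo)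
    (h2 : hi ≤ hi') : Bd g lo' hi' := by
  constructor
  · intro v δ hδ
    exact h.1 v δ (hδ.imp (fun h => h.trans h1) (fun h => h2.trans h))
  · intro δ hδ
    exact h.2 δ (hδ.imp (fun h => h.trans h1) (fun h => h2.trans h))

theorem Bd.mul {g g' : V ≃ₗ[ZMod 2] V} {lo hi : ℚ} (h : Bd g lo hi) (h' : Bd g' lo hi) :
    Bd (g * g') lo hi := by
  constructor
  · intro v δ hδ
    show (g (g' v)) δ = v δ
    rw [h.1 _ δ hδ, h'.1 _ δ hδ]
  · intro δ hδ
    show g (g' (Finsupp.single δ 1)) = Finsupp.single δ 1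
    rw [h'.2 δ hδ, h.2 δ hδ]

theorem exists_bd {g : V ≃ₗ[ZMod 2] V} (hg : g ∈ U) :
    ∃ lo hi : ℚ, lo < hi ∧ Bd g lo hi ∧ Bd g⁻¹ lo hi := by
  induction hg using Subgroup.closure_induction with
  | mem x hx =>
    obtain ⟨α, β, h, rfl⟩ := hx
    have hb : Bd (tv α β h.ne) (α - 1) (β + 1) := by
      constructor
      · intro v δ hδ
        rw [tv_apply, Finsupp.add_apply, Finsupp.single_apply, if_neg, add_zero]
        rintro rfl
        rcases hδ with hδ | hδ <;> linarith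
      · intro δ hδ
        rw [tv_apply, Finsupp.single_apply, if_neg, Finsupp.single_zero, add_zero]
        rintro rfl
        rcases hδ with hδ | hδ <;> linarith
    refine ⟨α - 1, β + 1, by linarith, hb, ?_⟩
    rw [tv_inv]
    exact hb
  | one => exact ⟨0, 1, one_pos, ⟨fun _ _ _ => rfl, fun _ _ => rfl⟩,
      ⟨fun _ _ _ => rfl, fun _ _ => rfl⟩⟩
  | mul x y _ _ hx hy =>
    obtain ⟨lo, hi, h0, h1, h2⟩ := hx
    obtain ⟨lo', hi', h0', h1', h2'⟩ := hy
    refine ⟨min lo lo', max hi hi', (min_le_left _ _).trans_lt (h0.trans_le (le_max_left _ _)),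
      ?_, ?_⟩
    · exact (h1.mono (min_le_left _ _) (le_max_left _ _)).mul
        (h1'.mono (min_le_right _ _) (le_max_right _ _))
    · rw [mul_inv_rev]
      exact (h2'.mono (min_le_right _ _) (le_max_right _ _)).mul
        (h2.mono (min_le_left _ _) (le_max_left _ _))
  | inv x _ hx =>
    obtain ⟨lo, hi, h0, h1, h2⟩ := hx
    exact ⟨lo, hi, h0, h2, by rw [inv_inv]; exact h1⟩

/-- The first commutator: `[g, tv β δ]` is the transvection `v ↦ v + v δ • (g e β - e β)`. -/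
theorem comm_one {g : V ≃ₗ[ZMod 2] V} {lo hi : ℚ} (_h : Bd g lo hi) (h' : Bd g⁻¹ lo hi)
    {β δ : ℚ} (hβ : β ≠ δ) (hδ : hi ≤ δ) (v : V) :
    ⁅g, tv β δ hβ⁆ v = v + v δ • (g (Finsupp.single β 1) + Finsupp.single β 1) := by
  rw [commutatorElement_def, tv_inv]
  show g (tv β δ hβ (g⁻¹ (tv β δ hβ v))) = _
  have h1 : ∀ u : V, g (tv β δ hβ (g⁻¹ u)) = u + u δ • g (Finsupp.single β 1) := by
    intro u
    rw [tv_apply, h'.1 u δ (Or.inr hδ), map_add]
    have h2 : g (g⁻¹ u) = u := by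
      show (g * g⁻¹) u = u
      rw [mul_inv_cancel]; rfl
    rw [h2]
    have h3 : (Finsupp.single β (u δ) : V) = u δ • Finsupp.single β 1 := by
      rw [Finsupp.smul_single, smul_eq_mul, mul_one]
    rw [h3, map_smul]
  rw [h1, tv_apply, Finsupp.add_apply, Finsupp.single_apply, if_neg hβ, add_zero, smul_add]
  have h3 : (Finsupp.single β (v δ) : V) = v δ • Finsupp.single β 1 := by
    rw [Finsupp.smul_single, smul_eq_mul, mul_one]
  rw [h3]
  abel

/-- The second commutator. -/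
theorem comm_two {c : V ≃ₗ[ZMod 2] V} {δ α0 γ : ℚ} {w : V} (hc : ∀ v, c v = v + v δ • w)
    (hw : w δ = 0) (hwα : w α0 = 1) (h1 : γ ≠ δ) (h2 : γ ≠ α0) :
    ⁅tv γ α0 h2, c⁆ = tv γ δ h1 := by
  have hcc : c⁻¹ = c := by
    rw [inv_eq_iff_mul_eq_one]
    apply LinearEquiv.ext
    intro a
    show c (c a) = a
    rw [hc, hc, Finsupp.add_apply, Finsupp.smul_apply, hw, smul_zero, add_zero, add_assoc,
      add_self, add_zero]
  rw [commutatorElement_def, tv_inv, hcc]
  apply LinearEquiv.ext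
  intro v
  show tv γ α0 h2 (c (tv γ α0 h2 (c v))) = tv γ δ h1 v
  have e1 : ∀ u : V, c (tv γ α0 h2 u) = u + Finsupp.single γ (u α0) + u δ • w := by
    intro u
    rw [hc, tv_apply, Finsupp.add_apply, Finsupp.single_apply, if_neg h1, add_zero]
  rw [e1]
  have e2 : (c v) δ = v δ := by
    rw [hc, Finsupp.add_apply, Finsupp.smul_apply, hw, smul_zero, add_zero]
  have e3 : (c v) α0 = v α0 + v δ := by
    rw [hc, Finsupp.add_apply, Finsupp.smul_apply, hwα, smul_eq_mul, mul_one]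
  rw [e2, e3, hc]
  have e4 : v + v δ • w + Finsupp.single γ (v α0 + v δ) + v δ • w =
      v + Finsupp.single γ (v α0 + v δ) := by
    have : v + v δ • w + Finsupp.single γ (v α0 + v δ) + v δ • w =
      v + Finsupp.single γ (v α0 + v δ) + (v δ • w + v δ • w) := by abel
    rw [this, add_self, add_zero]
  rw [e4, tv_apply, Finsupp.add_apply, Finsupp.single_apply, if_neg h2, add_zero, tv_apply,
    add_assoc, ← Finsupp.single_add]
  congr 2
  have : v α0 + v δ + v α0 = v δ + (v α0 + v α0) := by ring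
  rw [this, CharTwo.add_self_eq_zero, add_zero]

/-- Every nontrivial normal subgroup of `U` contains the transvections `tv γ δ` with `γ` small
enough and `δ` large enough. -/
theorem normal_contains (A : Subgroup U) [hA : A.Normal] {g : U} (hg : g ∈ A) (hg1 : g ≠ 1) :
    ∃ lo hi : ℚ, lo < hi ∧ ∀ γ δ : ℚ, γ ≤ lo → hi ≤ δ → ∀ h : γ < δ,
      (⟨tv γ δ h.ne, tv_mem h⟩ : U) ∈ A := by
  obtain ⟨lo, hi, hlh, hb, hb'⟩ := exists_bd g.2
  refine ⟨lo, hi, hlh, ?_⟩
  intro γ δ hγ hδ hγδ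
  -- a basis vector moved by `g`
  have hex : ∃ β : ℚ, (g : V ≃ₗ[ZMod 2] V) (Finsupp.single β 1) ≠ Finsupp.single β 1 := by
    by_contra hcon
    push Not at hcon
    apply hg1
    apply Subtype.ext
    apply LinearEquiv.toLinearMap_injective
    apply Finsupp.lhom_ext
    intro β c
    show (g : V ≃ₗ[ZMod 2] V) (Finsupp.single β c) = Finsupp.single β c
    have h3 : (Finsupp.single β c : V) = c • Finsupp.single β 1 := by
      rw [Finsupp.smul_single, smul_eq_mul, mul_one]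
    rw [h3, map_smul, hcon]
  obtain ⟨β, hβ⟩ := hex
  have hβlo : lo < β := by
    by_contra h
    exact hβ (hb.2 β (Or.inl (not_lt.1 h)))
  have hβhi : β < hi := by
    by_contra h
    exact hβ (hb.2 β (Or.inr (not_lt.1 h)))
  have hβδ : β < δ := hβhi.trans_le hδ
  set w : V := (g : V ≃ₗ[ZMod 2] V) (Finsupp.single β 1) + Finsupp.single β 1 with hw
  have hwout : ∀ ε, (ε ≤ lo ∨ hi ≤ ε) → w ε = 0 := by
    intro ε hε
    rw [hw, Finsupp.add_apply, hb.1 _ ε hε]
    exact CharTwo.add_self_eq_zero _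
  have hw0 : w ≠ 0 := by
    intro h
    apply hβ
    have h2 := congrArg (fun x => x + Finsupp.single β 1) (hw.symm.trans h)
    simp only [add_assoc, add_self, add_zero, zero_add] at h2
    exact h2
  obtain ⟨α0, hα0⟩ : ∃ α0, w α0 ≠ 0 := by
    by_contra hcon
    push Not at hcon
    exact hw0 (Finsupp.ext hcon)
  have hα1 : w α0 = 1 := by
    have : ∀ x : ZMod 2, x ≠ 0 → x = 1 := by decide
    exact this _ hα0
  have hαlo : lo < α0 := by
    by_contra h
    exact hα0 (hwout α0 (Or.inl (not_lt.1 h)))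
  have hγα : γ < α0 := lt_of_le_of_lt hγ hαlo
  -- first commutator
  let t1 : U := ⟨tv β δ hβδ.ne, tv_mem hβδ⟩
  let t2 : U := ⟨tv γ α0 hγα.ne, tv_mem hγα⟩
  have hbr : ∀ x y : U, y ∈ A → ⁅x, y⁆ ∈ A := by
    intro x y hy
    rw [commutatorElement_def]
    exact A.mul_mem (hA.conj_mem y hy x) (A.inv_mem hy)
  have hc1 : ⁅g, t1⁆ ∈ A := by
    rw [← commutatorElement_inv]
    exact A.inv_mem (hbr t1 g hg)
  have hc2 := hbr t2 _ hc1
  have h1 : ∀ v, ((⁅g, t1⁆ : U) : V ≃ₗ[ZMod 2] V) v = v + v δ • w := by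
    intro v
    exact comm_one hb hb' hβδ.ne hδ v
  have h2 : ⁅t2, ⁅g, t1⁆⁆ = (⟨tv γ δ hγδ.ne, tv_mem hγδ⟩ : U) := by
    apply Subtype.ext
    exact comm_two h1 (hwout δ (Or.inr hδ)) hα1 hγδ.ne hγα.ne
  rw [← h2]
  exact hc2

/-- Two nontrivial normal subgroups meet nontrivially. -/
theorem normal_inf (A B : Subgroup U) [A.Normal] [B.Normal] (hA : A ≠ ⊥) (hB : B ≠ ⊥) :
    A ⊓ B ≠ ⊥ := by
  obtain ⟨⟨g, hg⟩, hg1'⟩ := Subgroup.ne_bot_iff_exists_ne_one.1 hA
  obtain ⟨⟨k, hk⟩, hk1'⟩ := Subgroup.ne_bot_iff_exists_ne_one.1 hB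
  have hg1 : g ≠ 1 := fun h => hg1' (Subtype.ext h)
  have hk1 : k ≠ 1 := fun h => hk1' (Subtype.ext h)
  obtain ⟨lo, hi, hlh, h1⟩ := normal_contains A hg hg1
  obtain ⟨lo', hi', hlh', h2⟩ := normal_contains B hk hk1
  have hlt : min lo lo' < max hi hi' :=
    (min_le_left _ _).trans_lt (hlh.trans_le (le_max_left _ _))
  intro hbot
  have h3 : (⟨tv _ _ hlt.ne, tv_mem hlt⟩ : U) ∈ A ⊓ B :=
    ⟨h1 _ _ (min_le_left _ _) (le_max_left _ _) hlt, h2 _ _ (min_le_right _ _) (le_max_right _ _) hlt⟩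
  rw [hbot, Subgroup.mem_bot] at h3
  have h4 := congrArg Subtype.val h3
  have h5 := congrArg (fun f : V ≃ₗ[ZMod 2] V => f (Finsupp.single (max hi hi') 1)) h4
  have h6 : (Finsupp.single (max hi hi') 1 : V) + Finsupp.single (min lo lo') 1 =
      Finsupp.single (max hi hi') 1 := by
    have h7 := h5
    simp only [tv_apply, Finsupp.single_eq_same] at h7
    exact h7
  have h8 : (Finsupp.single (min lo lo') 1 : V) = 0 := by
    have := congrArg (fun x => Finsupp.single (max hi hi') 1 + x) h6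
    simp only [← add_assoc, add_self, zero_add] at this
    exact this
  rw [Finsupp.single_eq_zero] at h8
  exact one_ne_zero h8

/-- The transvections are nontrivial. -/
theorem tv_ne_one {α β : ℚ} (h : α < β) : (⟨tv α β h.ne, tv_mem h⟩ : U) ≠ 1 := by
  intro h3
  have h4 := congrArg Subtype.val h3
  have h5 := congrArg (fun f : V ≃ₗ[ZMod 2] V => f (Finsupp.single β 1)) h4
  have h6 : (Finsupp.single β 1 : V) + Finsupp.single α 1 = Finsupp.single β 1 := by
    have h7 := h5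
    simp only [tv_apply, Finsupp.single_eq_same] at h7
    exact h7
  have h8 : (Finsupp.single α 1 : V) = 0 := by
    have := congrArg (fun x => Finsupp.single β 1 + x) h6
    simp only [← add_assoc, add_self, zero_add] at this
    exact this
  rw [Finsupp.single_eq_zero] at h8
  exact one_ne_zero h8

/-- For every nontrivial element there is another one that does not commute with it. -/
theorem centerless {g : U} (hg : g ≠ 1) : ∃ x : U, g * x ≠ x * g := by
  by_contra hcon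
  push Not at hcon
  have hmem : g ∈ Subgroup.center U := by
    rw [Subgroup.mem_center_iff]
    intro x
    exact (hcon x).symm
  obtain ⟨lo, hi, hlh, h1⟩ := normal_contains (Subgroup.center U) hmem hg
  have hc := h1 lo hi le_rfl le_rfl hlh
  rw [Subgroup.mem_center_iff] at hc
  have hlt : lo - 1 < lo := by linarith
  have h2 := hc ⟨tv (lo - 1) lo hlt.ne, tv_mem hlt⟩
  have h4 := congrArg Subtype.val h2
  have h5 := congrArg (fun f : V ≃ₗ[ZMod 2] V => f (Finsupp.single hi 1) (lo - 1)) h4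
  change (tv (lo - 1) lo hlt.ne (tv lo hi hlh.ne (Finsupp.single hi 1))) (lo - 1) =
    (tv lo hi hlh.ne (tv (lo - 1) lo hlt.ne (Finsupp.single hi 1))) (lo - 1) at h5
  have e1 : lo - 1 ≠ hi := (hlt.trans hlh).ne
  simp only [tv_apply, Finsupp.add_apply, Finsupp.single_eq_same, Finsupp.single_apply,
    if_neg hlt.ne, if_neg hlt.ne', if_neg hlh.ne, if_neg hlh.ne', if_neg e1, if_neg e1.symm,
    if_true] at h5
  revert h5
  decide

/-- The action of an order automorphism of the rationals on `V`. -/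
noncomputable def sh (e : ℚ ≃ ℚ) : V ≃ₗ[ZMod 2] V := Finsupp.domLCongr e

theorem sh_apply (e : ℚ ≃ ℚ) (v : V) (i : ℚ) : (sh e v) (e i) = v i := by
  show (Finsupp.domCongr e v) (e i) = v i
  rw [Finsupp.domCongr_apply, Finsupp.equivMapDomain_apply, e.symm_apply_apply]

theorem sh_tv (e : ℚ ≃ ℚ) (α β : ℚ) (h : α ≠ β) :
    sh e * tv α β h * (sh e)⁻¹ = tv (e α) (e β) (fun h' => h (e.injective h')) := by
  rw [mul_inv_eq_iff_eq_mul]
  apply LinearEquiv.ext
  intro v
  show sh e (tv α β h v) = tv (e α) (e β) (fun h' => h (e.injective h')) (sh e v)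
  rw [tv_apply, tv_apply, map_add, sh_apply]
  congr 1
  show Finsupp.domLCongr e (Finsupp.single α (v β)) = _
  rw [Finsupp.domLCongr_single]

/-- Conjugation by an increasing bijection preserves `U`. -/
theorem sh_mem {e : ℚ ≃ ℚ} (he : StrictMono e) {g : V ≃ₗ[ZMod 2] V} (hg : g ∈ U) :
    sh e * g * (sh e)⁻¹ ∈ U := by
  induction hg using Subgroup.closure_induction with
  | mem x hx =>
    obtain ⟨α, β, h, rfl⟩ := hx
    rw [sh_tv]
    exact tv_mem (he h)
  | one => rw [mul_one, mul_inv_cancel]; exact U.one_mem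
  | mul x y _ _ hx hy =>
    have : sh e * (x * y) * (sh e)⁻¹ = (sh e * x * (sh e)⁻¹) * (sh e * y * (sh e)⁻¹) := by
      group
    rw [this]
    exact U.mul_mem hx hy
  | inv x _ hx =>
    have : sh e * x⁻¹ * (sh e)⁻¹ = (sh e * x * (sh e)⁻¹)⁻¹ := by group
    rw [this]
    exact U.inv_mem hx

theorem sh_symm (e : ℚ ≃ ℚ) : sh e.symm = (sh e)⁻¹ := by
  rw [eq_inv_iff_mul_eq_one]
  apply LinearEquiv.ext
  intro v
  show sh e.symm (sh e v) = v
  ext i
  have h1 := sh_apply e.symm (sh e v) (e i)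
  rw [e.symm_apply_apply, sh_apply] at h1
  exact h1

/-- The automorphism of `U` given by an increasing bijection of the rationals. -/
noncomputable def au (e : ℚ ≃ ℚ) (he : StrictMono e) (he' : StrictMono e.symm) : U ≃* U where
  toFun g := ⟨sh e * g * (sh e)⁻¹, sh_mem he g.2⟩
  invFun g := ⟨sh e.symm * g * (sh e.symm)⁻¹, sh_mem he' g.2⟩
  left_inv g := by
    apply Subtype.ext
    show sh e.symm * (sh e * g * (sh e)⁻¹) * (sh e.symm)⁻¹ = g
    rw [sh_symm]
    group
  right_inv g := by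
    apply Subtype.ext
    show sh e * (sh e.symm * g * (sh e.symm)⁻¹) * (sh e)⁻¹ = g
    rw [sh_symm]
    group
  map_mul' g k := by
    apply Subtype.ext
    show sh e * (g * k) * (sh e)⁻¹ = (sh e * g * (sh e)⁻¹) * (sh e * k * (sh e)⁻¹)
    group

/-- `U` is characteristically simple. -/
theorem char_simple (C : Subgroup U) (hC : C.Characteristic) : C = ⊥ ∨ C = ⊤ := by
  by_cases hbot : C = ⊥
  · exact Or.inl hbot
  right
  haveI : C.Normal := inferInstance
  obtain ⟨⟨g, hg⟩, hg1'⟩ := Subgroup.ne_bot_iff_exists_ne_one.1 hbot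
  have hg1 : g ≠ 1 := fun h => hg1' (Subtype.ext h)
  obtain ⟨lo, hi, hlh, h1⟩ := normal_contains C hg hg1
  have hc := h1 lo hi le_rfl le_rfl hlh
  have hall : ∀ (α β : ℚ) (h : α < β), (⟨tv α β h.ne, tv_mem h⟩ : U) ∈ C := by
    intro α β h
    have hr : (β - α) / (hi - lo) ≠ 0 := by
      apply div_ne_zero <;> apply sub_ne_zero.2
      · exact h.ne'
      · exact hlh.ne'
    have hrpos : 0 < (β - α) / (hi - lo) := div_pos (sub_pos.2 h) (sub_pos.2 hlh)
    let e : ℚ ≃ ℚ :=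
      { toFun := fun x => (x - lo) * ((β - α) / (hi - lo)) + α
        invFun := fun x => (x - α) / ((β - α) / (hi - lo)) + lo
        left_inv := by
          intro x
          show ((x - lo) * ((β - α) / (hi - lo)) + α - α) / ((β - α) / (hi - lo)) + lo = x
          rw [add_sub_cancel_right, mul_div_assoc, div_self hr]
          ring
        right_inv := by
          intro x
          show ((x - α) / ((β - α) / (hi - lo)) + lo - lo) * ((β - α) / (hi - lo)) + α = x
          rw [add_sub_cancel_right, div_mul_cancel₀ _ hr]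
          ring }
    have he : StrictMono e := by
      intro x y hxy
      show (x - lo) * ((β - α) / (hi - lo)) + α < (y - lo) * ((β - α) / (hi - lo)) + α
      have := mul_lt_mul_of_pos_right (sub_lt_sub_right hxy lo) hrpos
      linarith
    have he' : StrictMono e.symm := by
      intro x y hxy
      by_contra hcon
      have := he.monotone (not_lt.1 hcon)
      rw [e.apply_symm_apply, e.apply_symm_apply] at this
      linarith
    have e1 : e lo = α := by
      show (lo - lo) * ((β - α) / (hi - lo)) + α = α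
      rw [sub_self, zero_mul, zero_add]
    have e2 : e hi = β := by
      show (hi - lo) * ((β - α) / (hi - lo)) + α = β
      rw [mul_div_cancel₀ _ (sub_ne_zero.2 hlh.ne')]
      ring
    have h2 := Subgroup.characteristic_iff_map_le.1 hC (au e he he')
    have h3 : au e he he' ⟨tv lo hi hlh.ne, tv_mem hlh⟩ ∈ C :=
      h2 (Subgroup.mem_map_of_mem _ hc)
    have h4 : au e he he' ⟨tv lo hi hlh.ne, tv_mem hlh⟩ = ⟨tv α β h.ne, tv_mem h⟩ := by
      apply Subtype.ext
      show sh e * tv lo hi hlh.ne * (sh e)⁻¹ = tv α β h.ne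
      rw [sh_tv]
      congr 1
    rw [← h4]
    exact h3
  rw [Subgroup.eq_top_iff']
  rintro ⟨x, hx⟩
  have key : ∀ x (hx : x ∈ U), (⟨x, hx⟩ : U) ∈ C := by
    intro x hx
    induction hx using Subgroup.closure_induction with
    | mem y hy =>
      obtain ⟨α, β, h, rfl⟩ := hy
      exact hall α β h
    | one => exact C.one_mem
    | mul y z hy hz h1 h2 => exact C.mul_mem h1 h2
    | inv y hy h1 => exact C.inv_mem h1
  exact key x hx

/-- The vectors supported on the negative rationals. -/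
def Neg (v : V) : Prop := ∀ δ : ℚ, 0 ≤ δ → v δ = 0

theorem U_neg {g : V ≃ₗ[ZMod 2] V} (hg : g ∈ U) : ∀ v, Neg v → Neg (g v) ∧ Neg (g⁻¹ v) := by
  induction hg using Subgroup.closure_induction with
  | mem x hx =>
    obtain ⟨α, β, h, rfl⟩ := hx
    intro v hv
    rw [tv_inv, and_self]
    intro δ hδ
    rw [tv_apply, Finsupp.add_apply, hv δ hδ, zero_add, Finsupp.single_apply]
    split_ifs with h1
    · exact hv β (by rw [← h1] at hδ; exact hδ.trans h.le)
    · rfl
  | one => intro v hv; exact ⟨hv, hv⟩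
  | mul x y _ _ hx hy =>
    intro v hv
    refine ⟨(hx _ (hy v hv).1).1, ?_⟩
    rw [mul_inv_rev]
    exact (hy _ (hx v hv).2).2
  | inv x _ hx =>
    intro v hv
    rw [inv_inv]
    exact (hx v hv).symm

/-- An abelian normal subgroup of `U`. -/
def Ab : Subgroup U where
  carrier := {g | (∀ v, Neg ((g : V ≃ₗ[ZMod 2] V) v + v)) ∧
    ∀ v, Neg v → (g : V ≃ₗ[ZMod 2] V) v = v}
  one_mem' := by
    refine ⟨fun v => ?_, fun v _ => rfl⟩
    show Neg (v + v)
    rw [add_self]
    intro δ _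
    rfl
  mul_mem' := by
    rintro a b ⟨ha1, ha2⟩ ⟨hb1, hb2⟩
    refine ⟨fun v => ?_, fun v hv => ?_⟩
    · show Neg ((a : V ≃ₗ[ZMod 2] V) ((b : V ≃ₗ[ZMod 2] V) v) + v)
      have h1 : (b : V ≃ₗ[ZMod 2] V) v = v + ((b : V ≃ₗ[ZMod 2] V) v + v) := by
        rw [add_comm _ v, ← add_assoc, add_self, zero_add]
      rw [h1, map_add, ha2 _ (hb1 v)]
      intro δ hδ
      have h2 := ha1 v δ hδ
      have h3 := hb1 v δ hδ
      rw [Finsupp.add_apply] at h2 h3
      rw [Finsupp.add_apply, Finsupp.add_apply, Finsupp.add_apply]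
      rw [h3, add_zero]
      exact h2
    · show (a : V ≃ₗ[ZMod 2] V) ((b : V ≃ₗ[ZMod 2] V) v) = v
      rw [hb2 v hv, ha2 v hv]
  inv_mem' := by
    rintro a ⟨ha1, ha2⟩
    have hinv : ∀ v, (a : V ≃ₗ[ZMod 2] V) ((a : V ≃ₗ[ZMod 2] V)⁻¹ v) = v := by
      intro v
      show ((a : V ≃ₗ[ZMod 2] V) * (a : V ≃ₗ[ZMod 2] V)⁻¹) v = v
      rw [mul_inv_cancel]
      rfl
    refine ⟨fun v => ?_, fun v hv => ?_⟩
    · show Neg ((a : V ≃ₗ[ZMod 2] V)⁻¹ v + v)
      have h1 := ha1 ((a : V ≃ₗ[ZMod 2] V)⁻¹ v)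
      rw [hinv] at h1
      rw [add_comm]
      exact h1
    · show (a : V ≃ₗ[ZMod 2] V)⁻¹ v = v
      have h1 : (a : V ≃ₗ[ZMod 2] V) ((a : V ≃ₗ[ZMod 2] V)⁻¹ v) = (a : V ≃ₗ[ZMod 2] V) v := by
        rw [hinv, ha2 v hv]
      exact (a : V ≃ₗ[ZMod 2] V).injective h1

theorem Ab_normal : Ab.Normal := by
  constructor
  rintro a ⟨ha1, ha2⟩ g
  have hg := U_neg g.2
  have hinv : ∀ v, (g : V ≃ₗ[ZMod 2] V) ((g : V ≃ₗ[ZMod 2] V)⁻¹ v) = v := by
    intro v
    show ((g : V ≃ₗ[ZMod 2] V) * (g : V ≃ₗ[ZMod 2] V)⁻¹) v = v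
    rw [mul_inv_cancel]
    rfl
  refine ⟨fun v => ?_, fun v hv => ?_⟩
  · show Neg ((g : V ≃ₗ[ZMod 2] V) ((a : V ≃ₗ[ZMod 2] V) ((g : V ≃ₗ[ZMod 2] V)⁻¹ v)) + v)
    have h1 := ha1 ((g : V ≃ₗ[ZMod 2] V)⁻¹ v)
    have h2 := (hg _ h1).1
    rw [map_add, hinv] at h2
    exact h2
  · show (g : V ≃ₗ[ZMod 2] V) ((a : V ≃ₗ[ZMod 2] V) ((g : V ≃ₗ[ZMod 2] V)⁻¹ v)) = v
    rw [ha2 _ (hg v hv).2, hinv]

theorem Ab_comm {a b : U} (ha : a ∈ Ab) (hb : b ∈ Ab) : a * b = b * a := by
  have key : ∀ {a b : U}, a ∈ Ab → b ∈ Ab → ∀ v : V,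
      (a : V ≃ₗ[ZMod 2] V) ((b : V ≃ₗ[ZMod 2] V) v) =
        v + ((a : V ≃ₗ[ZMod 2] V) v + v) + ((b : V ≃ₗ[ZMod 2] V) v + v) := by
    rintro a b ⟨ha1, ha2⟩ ⟨hb1, hb2⟩ v
    have h1 : (b : V ≃ₗ[ZMod 2] V) v = v + ((b : V ≃ₗ[ZMod 2] V) v + v) := by
      rw [add_comm _ v, ← add_assoc, add_self, zero_add]
    have h2 : v + ((a : V ≃ₗ[ZMod 2] V) v + v) = (a : V ≃ₗ[ZMod 2] V) v := by
      rw [add_comm _ v, ← add_assoc, add_self, zero_add]
    rw [h2]
    conv_lhs => rw [h1, map_add, ha2 _ (hb1 v)]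
  apply Subtype.ext
  apply LinearEquiv.ext
  intro v
  show (a : V ≃ₗ[ZMod 2] V) ((b : V ≃ₗ[ZMod 2] V) v) = (b : V ≃ₗ[ZMod 2] V) ((a : V ≃ₗ[ZMod 2] V) v)
  rw [key ha hb, key hb ha]
  abel

theorem Ab_ne_bot : ∃ a : U, a ∈ Ab ∧ a ≠ 1 := by
  have hlt : (-1 : ℚ) < 1 := by norm_num
  refine ⟨⟨tv (-1) 1 hlt.ne, tv_mem hlt⟩, ⟨fun v => ?_, fun v hv => ?_⟩, tv_ne_one hlt⟩
  · show Neg (tv (-1) 1 hlt.ne v + v)
    intro δ hδ
    rw [tv_apply, Finsupp.add_apply, Finsupp.add_apply, Finsupp.single_apply, if_neg, add_zero]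
    · exact CharTwo.add_self_eq_zero _
    · rintro rfl
      norm_num at hδ
  · show tv (-1) 1 hlt.ne v = v
    rw [tv_apply, hv 1 (by norm_num), Finsupp.single_zero, add_zero]

end Q6.McLain
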