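import Mathlib

/-!
# Automorphisms of the square of a group whose nontrivial normal subgroups meet
-/

namespace Q6.McLain

variable {G : Type*} [Group G]

/-- The hypotheses: no nontrivial central element, two nontrivial normal subgroups meet. -/
structure Good (G : Type*) [Group G] : Prop where
  cless : ∀ g : G, g ≠ 1 → ∃ x : G, g * x ≠ x * g
  meet : ∀ A B : Subgroup G, A.Normal → B.Normal → A ≠ ⊥ → B ≠ ⊥ → A ⊓ B ≠ ⊥
  nontriv : Nontrivial G

theorem Good.prod_cless (hG : Good G) (z : G × G) (hz : ∀ x : G × G, z * x = x * z) : z = 1 := by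
  by_contra hne
  have : z.1 ≠ 1 ∨ z.2 ≠ 1 := by
    by_contra hcon
    push Not at hcon
    exact hne (Prod.ext hcon.1 hcon.2)
  rcases this with h | h
  · obtain ⟨x, hx⟩ := hG.cless _ h
    exact hx (congrArg Prod.fst (hz (x, 1)))
  · obtain ⟨x, hx⟩ := hG.cless _ h
    exact hx (congrArg Prod.snd (hz (1, x)))

/-- Automorphisms of `G × G` are products, up to the swap. -/
theorem Good.aut (hG : Good G) (θ : (G × G) ≃* (G × G)) :
    ∃ α β : G →* G, Function.Injective α ∧ Function.Injective β ∧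
      ((∀ x y, θ (x, y) = (α x, β y)) ∨ ∀ x y, θ (x, y) = (α y, β x)) := by
  classical
  -- the images of the two factors commute
  have hcomm : ∀ x y : G, θ (x, 1) * θ (1, y) = θ (1, y) * θ (x, 1) := by
    intro x y
    rw [← map_mul, ← map_mul]
    simp
  have hsplit : ∀ x y : G, θ (x, y) = θ (x, 1) * θ (1, y) := by
    intro x y
    rw [← map_mul]
    simp
  -- the centralizer of the image of the second factor
  have hcB : ∀ z : G × G, (∀ y, z * θ (1, y) = θ (1, y) * z) → ∃ x, z = θ (x, 1) := by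
    intro z hz
    obtain ⟨⟨x, y⟩, hxy⟩ := θ.surjective z
    refine ⟨x, ?_⟩
    have hy : ∀ w : G × G, (1, y) * w = w * (1, y) := by
      intro w
      apply Prod.ext
      · simp
      · show y * w.2 = w.2 * y
        have h1 := hz w.2
        rw [← hxy, ← map_mul, ← map_mul] at h1
        have h2 := congrArg Prod.snd (θ.injective h1)
        exact h2
    have h3 := hG.prod_cless (1, y) hy
    have h4 : y = 1 := congrArg Prod.snd h3
    rw [← hxy, h4]
  have hcA : ∀ z : G × G, (∀ x, z * θ (x, 1) = θ (x, 1) * z) → ∃ y, z = θ (1, y) := by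
    intro z hz
    obtain ⟨⟨x, y⟩, hxy⟩ := θ.surjective z
    refine ⟨y, ?_⟩
    have hy : ∀ w : G × G, (x, 1) * w = w * (x, 1) := by
      intro w
      apply Prod.ext
      · show x * w.1 = w.1 * x
        have h1 := hz w.1
        rw [← hxy, ← map_mul, ← map_mul] at h1
        have h2 := congrArg Prod.fst (θ.injective h1)
        exact h2
      · simp
    have h3 := hG.prod_cless (x, 1) hy
    have h4 : x = 1 := congrArg Prod.fst h3
    rw [← hxy, h4]
  -- components
  have hA1 : ∀ x, ∃ x', ((θ (x, 1)).1, (1 : G)) = θ (x', 1) := by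
    intro x
    apply hcB
    intro y
    have h1 := congrArg Prod.fst (hcomm x y)
    apply Prod.ext
    · exact h1
    · show 1 * (θ (1, y)).2 = (θ (1, y)).2 * 1
      rw [one_mul, mul_one]
  have hA2 : ∀ x, ∃ x', ((1 : G), (θ (x, 1)).2) = θ (x', 1) := by
    intro x
    apply hcB
    intro y
    have h1 := congrArg Prod.snd (hcomm x y)
    apply Prod.ext
    · show 1 * (θ (1, y)).1 = (θ (1, y)).1 * 1
      rw [one_mul, mul_one]
    · exact h1
  have hB1 : ∀ y, ∃ y', ((θ (1, y)).1, (1 : G)) = θ (1, y') := by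
    intro y
    apply hcA
    intro x
    have h1 := congrArg Prod.fst (hcomm x y)
    apply Prod.ext
    · exact h1.symm
    · show 1 * (θ (x, 1)).2 = (θ (x, 1)).2 * 1
      rw [one_mul, mul_one]
  have hB2 : ∀ y, ∃ y', ((1 : G), (θ (1, y)).2) = θ (1, y') := by
    intro y
    apply hcA
    intro x
    have h1 := congrArg Prod.snd (hcomm x y)
    apply Prod.ext
    · show 1 * (θ (x, 1)).1 = (θ (x, 1)).1 * 1
      rw [one_mul, mul_one]
    · exact h1.symm
  -- the four normal subgroups
  let in1 : G →* G × G := MonoidHom.inl G G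
  let in2 : G →* G × G := MonoidHom.inr G G
  let A : Subgroup (G × G) := (MonoidHom.inl G G).range.map θ.toMonoidHom
  let B : Subgroup (G × G) := (MonoidHom.inr G G).range.map θ.toMonoidHom
  have memA : ∀ z, z ∈ A ↔ ∃ x, z = θ (x, 1) := by
    intro z
    constructor
    · rintro ⟨w, ⟨x, rfl⟩, rfl⟩
      exact ⟨x, rfl⟩
    · rintro ⟨x, rfl⟩
      exact ⟨_, ⟨x, rfl⟩, rfl⟩
  have memB : ∀ z, z ∈ B ↔ ∃ x, z = θ (1, x) := by
    intro z
    constructor
    · rintro ⟨w, ⟨x, rfl⟩, rfl⟩
      exact ⟨x, rfl⟩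
    · rintro ⟨x, rfl⟩
      exact ⟨_, ⟨x, rfl⟩, rfl⟩
  have nA : A.Normal := by
    constructor
    intro z hz g
    rw [memA] at hz ⊢
    obtain ⟨x, rfl⟩ := hz
    obtain ⟨⟨a, b⟩, rfl⟩ := θ.surjective g
    refine ⟨a * x * a⁻¹, ?_⟩
    rw [← map_inv, ← map_mul, ← map_mul]
    congr 1
    apply Prod.ext
    · rfl
    · show b * 1 * b⁻¹ = 1
      rw [mul_one, mul_inv_cancel]
  have nB : B.Normal := by
    constructor
    intro z hz g
    rw [memB] at hz ⊢
    obtain ⟨x, rfl⟩ := hz
    obtain ⟨⟨a, b⟩, rfl⟩ := θ.surjective g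
    refine ⟨b * x * b⁻¹, ?_⟩
    rw [← map_inv, ← map_mul, ← map_mul]
    congr 1
    apply Prod.ext
    · show a * 1 * a⁻¹ = 1
      rw [mul_one, mul_inv_cancel]
    · rfl
  have dAB : ∀ z, z ∈ A → z ∈ B → z = 1 := by
    intro z h1 h2
    rw [memA] at h1
    rw [memB] at h2
    obtain ⟨x, hx⟩ := h1
    obtain ⟨y, hy⟩ := h2
    have h3 := θ.injective (hx.symm.trans hy)
    have h4 : x = 1 := congrArg Prod.fst h3
    rw [hx, h4]
    exact map_one θ
  have one1 : ∀ i : G →* G × G, A.comap i ⊓ B.comap i = ⊥ ∨ ¬ Function.Injective i := by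
    intro i
    by_cases hi : Function.Injective i
    · left
      rw [eq_bot_iff]
      rintro g ⟨h1, h2⟩
      rw [Subgroup.mem_bot]
      apply hi
      rw [dAB _ h1 h2, map_one]
    · exact Or.inr hi
  have alt : ∀ i : G →* G × G, Function.Injective i → A.comap i = ⊥ ∨ B.comap i = ⊥ := by
    intro i hi
    by_contra hcon
    push Not at hcon
    rcases one1 i with h | h
    · exact hG.meet _ _ (nA.comap i) (nB.comap i) hcon.1 hcon.2 h
    · exact h hi
  have hin1 : Function.Injective in1 := fun a b h => congrArg Prod.fst h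
  have hin2 : Function.Injective in2 := fun a b h => congrArg Prod.snd h
  have A1 : A.comap in1 = ⊥ → ∀ x, (θ (x, 1)).1 = 1 := by
    intro h x
    have h1 : (θ (x, 1)).1 ∈ A.comap in1 := by
      rw [Subgroup.mem_comap, memA]
      exact hA1 x
    rw [h] at h1
    exact h1
  have A2 : A.comap in2 = ⊥ → ∀ x, (θ (x, 1)).2 = 1 := by
    intro h x
    have h1 : (θ (x, 1)).2 ∈ A.comap in2 := by
      rw [Subgroup.mem_comap, memA]
      exact hA2 x
    rw [h] at h1
    exact h1
  have B1 : B.comap in1 = ⊥ → ∀ x, (θ (1, x)).1 = 1 := by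
    intro h x
    have h1 : (θ (1, x)).1 ∈ B.comap in1 := by
      rw [Subgroup.mem_comap, memB]
      exact hB1 x
    rw [h] at h1
    exact h1
  have B2 : B.comap in2 = ⊥ → ∀ x, (θ (1, x)).2 = 1 := by
    intro h x
    have h1 : (θ (1, x)).2 ∈ B.comap in2 := by
      rw [Subgroup.mem_comap, memB]
      exact hB2 x
    rw [h] at h1
    exact h1
  obtain ⟨g0, hg0⟩ := @exists_ne G hG.nontriv (1 : G)
  have notA : ¬ ((∀ x, (θ (x, 1)).1 = 1) ∧ ∀ x, (θ (x, 1)).2 = 1) := by
    rintro ⟨h1, h2⟩
    have h3 : θ (g0, 1) = 1 := Prod.ext (h1 _) (h2 _)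
    rw [← map_one θ] at h3
    exact hg0 (congrArg Prod.fst (θ.injective h3))
  have notB : ¬ ((∀ x, (θ (1, x)).1 = 1) ∧ ∀ x, (θ (1, x)).2 = 1) := by
    rintro ⟨h1, h2⟩
    have h3 : θ (1, g0) = 1 := Prod.ext (h1 _) (h2 _)
    rw [← map_one θ] at h3
    exact hg0 (congrArg Prod.snd (θ.injective h3))
  have key : ((∀ x, (θ (x, 1)).2 = 1) ∧ ∀ x, (θ (1, x)).1 = 1) ∨
      ((∀ x, (θ (x, 1)).1 = 1) ∧ ∀ x, (θ (1, x)).2 = 1) := by
    rcases alt in1 hin1 with h1 | h1 <;> rcases alt in2 hin2 with h2 | h2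
    · exact (notA ⟨A1 h1, A2 h2⟩).elim
    · exact Or.inr ⟨A1 h1, B2 h2⟩
    · exact Or.inl ⟨A2 h2, B1 h1⟩
    · exact (notB ⟨B1 h1, B2 h2⟩).elim
  rcases key with ⟨h1, h2⟩ | ⟨h1, h2⟩
  · refine ⟨(MonoidHom.fst G G).comp (θ.toMonoidHom.comp in1),
      (MonoidHom.snd G G).comp (θ.toMonoidHom.comp in2), ?_, ?_, Or.inl ?_⟩
    · intro a b hab
      have h3 : θ (a, 1) = θ (b, 1) := Prod.ext hab ((h1 a).trans (h1 b).symm)
      exact congrArg Prod.fst (θ.injective h3)
    · intro a b hab
      have h3 : θ (1, a) = θ (1, b) := Prod.ext ((h2 a).trans (h2 b).symm) hab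
      exact congrArg Prod.snd (θ.injective h3)
    · intro x y
      rw [hsplit]
      apply Prod.ext
      · show (θ (x, 1)).1 * (θ (1, y)).1 = (θ (x, 1)).1
        rw [h2, mul_one]
      · show (θ (x, 1)).2 * (θ (1, y)).2 = (θ (1, y)).2
        rw [h1, one_mul]
  · refine ⟨(MonoidHom.fst G G).comp (θ.toMonoidHom.comp in2),
      (MonoidHom.snd G G).comp (θ.toMonoidHom.comp in1), ?_, ?_, Or.inr ?_⟩
    · intro a b hab
      have h3 : θ (1, a) = θ (1, b) := Prod.ext hab ((h2 a).trans (h2 b).symm)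
      exact congrArg Prod.snd (θ.injective h3)
    · intro a b hab
      have h3 : θ (a, 1) = θ (b, 1) := Prod.ext ((h1 a).trans (h1 b).symm) hab
      exact congrArg Prod.fst (θ.injective h3)
    · intro x y
      rw [hsplit]
      apply Prod.ext
      · show (θ (x, 1)).1 * (θ (1, y)).1 = (θ (1, y)).1
        rw [h1, one_mul]
      · show (θ (x, 1)).2 * (θ (1, y)).2 = (θ (x, 1)).2
        rw [h2, mul_one]

/-- The square of a characteristically simple good group is characteristically simple. -/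
theorem Good.prod_char (hG : Good G)
    (hc : ∀ C : Subgroup G, C.Characteristic → C = ⊥ ∨ C = ⊤)
    (C : Subgroup (G × G)) (hC : C.Characteristic) : C = ⊥ ∨ C = ⊤ := by
  by_cases hbot : C = ⊥
  · exact Or.inl hbot
  right
  have hn : C.Normal := inferInstance
  have hsw : ∀ x y : G, (x, y) ∈ C → (y, x) ∈ C := by
    intro x y h
    have h1 := Subgroup.characteristic_iff_map_le.1 hC (MulEquiv.prodComm (M := G) (N := G))
    exact h1 (Subgroup.mem_map_of_mem _ h)
  -- a nontrivial element in the first factor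
  have h1 : ∃ x : G, x ≠ 1 ∧ (x, (1 : G)) ∈ C := by
    obtain ⟨⟨⟨a, b⟩, hab⟩, hne'⟩ := Subgroup.ne_bot_iff_exists_ne_one.1 hbot
    have hne : (a, b) ≠ ((1, 1) : G × G) := fun h => hne' (Subtype.ext h)
    have key : ∀ a b : G, (a, b) ∈ C → a ≠ 1 → ∃ x : G, x ≠ 1 ∧ (x, (1 : G)) ∈ C := by
      intro a b hab ha
      obtain ⟨x, hx⟩ := hG.cless a ha
      refine ⟨a * (x * a⁻¹ * x⁻¹), ?_, ?_⟩
      · intro h
        apply hx
        have h2 := mul_eq_one_iff_eq_inv.1 h
        have : x * a⁻¹ * x⁻¹ = a⁻¹ := by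
          rw [← mul_right_inj a, h, mul_inv_cancel]
        calc a * x = a * (x * a⁻¹ * x⁻¹) * x * a := by group
          _ = x * a := by rw [h, one_mul]
      · have h2 := hn.conj_mem _ (C.inv_mem hab) (x, 1)
        have h3 := C.mul_mem hab h2
        have h4 : ((a, b) * ((x, 1) * (a, b)⁻¹ * (x, 1)⁻¹) : G × G) =
            (a * (x * a⁻¹ * x⁻¹), 1) := by
          apply Prod.ext
          · rfl
          · show b * (1 * b⁻¹ * 1⁻¹) = 1
            simp
        rw [h4] at h3
        exact h3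
    by_cases ha : a = 1
    · have hb : b ≠ 1 := by
        rintro rfl
        exact hne (by rw [ha])
      exact key b a (hsw a b hab) hb
    · exact key a b hab ha
  have hD : (C.comap (MonoidHom.inl G G)).Characteristic := by
    rw [Subgroup.characteristic_iff_map_le]
    intro φ
    rintro _ ⟨x, hx, rfl⟩
    have h2 := Subgroup.characteristic_iff_map_le.1 hC (MulEquiv.prodCongr φ (MulEquiv.refl G))
    have h3 := h2 (Subgroup.mem_map_of_mem _ hx)
    exact h3
  have htop : C.comap (MonoidHom.inl G G) = ⊤ := by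
    rcases hc _ hD with h | h
    · obtain ⟨x, hx, hxC⟩ := h1
      have : x ∈ C.comap (MonoidHom.inl G G) := hxC
      rw [h] at this
      exact (hx this).elim
    · exact h
  rw [Subgroup.eq_top_iff']
  rintro ⟨x, y⟩
  have hx : (x, (1 : G)) ∈ C := by
    have : x ∈ C.comap (MonoidHom.inl G G) := by rw [htop]; exact Subgroup.mem_top _
    exact this
  have hy : (y, (1 : G)) ∈ C := by
    have : y ∈ C.comap (MonoidHom.inl G G) := by rw [htop]; exact Subgroup.mem_top _
    exact this
  have h3 := C.mul_mem hx (hsw _ _ hy)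
  have h4 : ((x, 1) * (1, y) : G × G) = (x, y) := by simp
  rw [h4] at h3
  exact h3

/-- A power of a nonabelian simple group has no nontrivial abelian normal subgroup. -/
theorem pi_simple_abelian {S ι : Type*} [Group S] [IsSimpleGroup S] [DecidableEq ι]
    (hS : ∃ a b : S, a * b ≠ b * a) (N : Subgroup (ι → S)) (hN : N.Normal)
    (hab : ∀ a ∈ N, ∀ b ∈ N, a * b = b * a) : N = ⊥ := by
  by_contra hbot
  obtain ⟨⟨n, hn⟩, hne'⟩ := Subgroup.ne_bot_iff_exists_ne_one.1 hbot
  have hne : n ≠ 1 := fun h => hne' (Subtype.ext h)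
  obtain ⟨i, hi⟩ : ∃ i, n i ≠ 1 := by
    by_contra hcon
    push Not at hcon
    exact hne (funext hcon)
  -- `S` is centerless
  have hcen : Subgroup.center S = ⊥ := by
    rcases (inferInstance : (Subgroup.center S).Normal).eq_bot_or_eq_top with h | h
    · exact h
    · exfalso
      obtain ⟨a, b, h1⟩ := hS
      have h2 : b ∈ Subgroup.center S := by rw [h]; exact Subgroup.mem_top _
      exact h1 (Subgroup.mem_center_iff.1 h2 a)
  have hx : ∃ x : S, n i * x ≠ x * n i := by
    by_contra hcon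
    push Not at hcon
    have : n i ∈ Subgroup.center S := by
      rw [Subgroup.mem_center_iff]
      intro x
      exact (hcon x).symm
    rw [hcen] at this
    exact hi this
  obtain ⟨x, hx⟩ := hx
  let e : S →* (ι → S) := MonoidHom.mulSingle (fun _ => S) i
  have heN : n i * (x * (n i)⁻¹ * x⁻¹) ∈ N.comap e := by
    rw [Subgroup.mem_comap]
    have h2 := hN.conj_mem _ (N.inv_mem hn) (e x)
    have h3 := N.mul_mem hn h2
    have h4 : n * (e x * n⁻¹ * (e x)⁻¹) = e (n i * (x * (n i)⁻¹ * x⁻¹)) := by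
      funext j
      by_cases hj : j = i
      · subst hj
        show n j * ((e x) j * (n j)⁻¹ * ((e x) j)⁻¹) = e _ j
        have e1 : ∀ s : S, (e s) j = s := fun s =>
          Pi.mulSingle_eq_same (M := fun _ => S) j s
        rw [e1, e1]
      · show n j * ((e x) j * (n j)⁻¹ * ((e x) j)⁻¹) = e _ j
        have e1 : ∀ s : S, (e s) j = 1 := fun s =>
          Pi.mulSingle_eq_of_ne (M := fun _ => S) hj s
        rw [e1, e1]
        simp
    rw [h4] at h3
    exact h3
  have htop : N.comap e = ⊤ := by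
    rcases (hN.comap e).eq_bot_or_eq_top with h | h
    · exfalso
      rw [h] at heN
      apply hx
      have h5 : n i * (x * (n i)⁻¹ * x⁻¹) = 1 := heN
      calc n i * x = n i * (x * (n i)⁻¹ * x⁻¹) * x * n i := by group
        _ = x * n i := by rw [h5, one_mul]
    · exact h
  obtain ⟨a, b, h1⟩ := hS
  apply h1
  have ha : e a ∈ N := by
    have : a ∈ N.comap e := by rw [htop]; exact Subgroup.mem_top _
    exact this
  have hb : e b ∈ N := by
    have : b ∈ N.comap e := by rw [htop]; exact Subgroup.mem_top _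
    exact this
  have h2 := hab _ ha _ hb
  rw [← map_mul, ← map_mul] at h2
  have h3 := congrFun h2 i
  have e1 : ∀ s : S, (e s) i = s := fun s =>
    Pi.mulSingle_eq_same (M := fun _ => S) i s
  rw [e1, e1] at h3
  exact h3

end Q6.McLain
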